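import Mathlib

namespace Pool.Agent.H.MP_d17fc5_co
open Finset PowerSeries

def NN (f : ℤ⟦X⟧) : Prop := ∀ n, 0 ≤ coeff n f

theorem NN.add {f g : ℤ⟦X⟧} (a : NN f) (b : NN g) : NN (f + g) := fun n => by
  rw [map_add]; exact add_nonneg (a n) (b n)

theorem NN.mul {f g : ℤ⟦X⟧} (a : NN f) (b : NN g) : NN (f * g) := fun n => by
  rw [coeff_mul]; exact Finset.sum_nonneg fun p _ => mul_nonneg (a _) (b _)

theorem NN.sum {ι : Type*} (s : Finset ι) (f : ι → ℤ⟦X⟧) (h : ∀ i ∈ s, NN (f i)) : NN (∑ i ∈ s, f i) :=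
  fun n => by rw [map_sum]; exact Finset.sum_nonneg fun i hi => h i hi n

theorem NN_pow (k : ℕ) : NN (X ^ k) := fun n => by
  rw [coeff_X_pow]; split_ifs <;> norm_num

theorem NN_one : NN 1 := by simpa using NN_pow 0

theorem NN_sub_range (f : ℕ → ℤ⟦X⟧) (h : ∀ i, NN (f i)) (a b : ℕ) (hab : a ≤ b) :
    NN (∑ i ∈ range b, f i - ∑ i ∈ range a, f i) := by
  rw [← Finset.sum_Ico_eq_sub _ hab]; exact NN.sum _ _ fun i _ => h i

def gp (S : Finset ℕ) : ℕ := (S.filter fun p => 2 ≤ p ∧ p - 1 ∉ S).card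

noncomputable def BB (k L : ℕ) : ℤ⟦X⟧ :=
  ∑ S ∈ (Icc 1 L).powerset, (((gp S).choose k : ℕ) : ℤ⟦X⟧) * X ^ (∑ p ∈ S, p)

theorem Icc_succ (L : ℕ) : Icc 1 (L+1) = insert (L+1) (Icc 1 L) := by
  ext x; simp only [mem_Icc, mem_insert]; omega

theorem gp_insert (L : ℕ) (S : Finset ℕ) (h : S ⊆ Icc 1 L) :
    gp (insert (L+1) S) = gp S + if 1 ≤ L ∧ L ∉ S then 1 else 0 := by
  have hn : L + 1 ∉ S := fun a => by have := mem_Icc.1 (h a); omega
  unfold gp
  rw [Finset.filter_insert]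
  have e : S.filter (fun p => 2 ≤ p ∧ p - 1 ∉ insert (L+1) S) = S.filter (fun p => 2 ≤ p ∧ p - 1 ∉ S) := by
    refine Finset.filter_congr fun p hp => ?_
    have := mem_Icc.1 (h hp)
    simp only [mem_insert, not_or]
    constructor
    · exact fun a => ⟨a.1, a.2.2⟩
    · exact fun a => ⟨a.1, by omega, a.2⟩
  rw [e]
  have e2 : (2 ≤ L + 1 ∧ L + 1 - 1 ∉ insert (L+1) S) ↔ (1 ≤ L ∧ L ∉ S) := by
    simp only [mem_insert, not_or, Nat.add_sub_cancel]
    constructor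
    · exact fun a => ⟨by omega, a.2.2⟩
    · exact fun a => ⟨by omega, by omega, a.2⟩
  simp only [e2]
  split_ifs
  · rw [Finset.card_insert_of_notMem fun a => hn (mem_filter.1 a).1]
  · rfl

theorem nm (L : ℕ) : L + 1 ∉ Icc 1 L := by simp

theorem BB_succ (k L : ℕ) : BB k (L+1) = BB k L + X^(L+1) * ∑ S ∈ (Icc 1 L).powerset,
    (((gp S + if 1 ≤ L ∧ L ∉ S then 1 else 0).choose k : ℕ) : ℤ⟦X⟧) * X ^ (∑ p ∈ S, p) := by
  unfold BB
  rw [Icc_succ, Finset.sum_powerset_insert (nm L), Finset.mul_sum]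
  congr 1
  refine Finset.sum_congr rfl fun S hS => ?_
  have h := mem_powerset.1 hS
  rw [gp_insert L S h, Finset.sum_insert fun a => nm L (h a), pow_add]; ring

theorem B0 (L : ℕ) : BB 0 (L+1) = (1 + X^(L+1)) * BB 0 L := by
  rw [BB_succ]; unfold BB; simp only [Nat.choose_zero_right]; ring

theorem Bk (k L : ℕ) : BB (k+1) (L+2) = (1 + X^(L+2)) * BB (k+1) (L+1) + X^(L+2) * BB k L := by
  rw [BB_succ (k+1) (L+1)]
  have e : ∀ S ∈ (Icc 1 (L+1)).powerset,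
      (((gp S + if 1 ≤ L + 1 ∧ L + 1 ∉ S then 1 else 0).choose (k+1) : ℕ) : ℤ⟦X⟧) * X ^ (∑ p ∈ S, p)
      = (((gp S).choose (k+1) : ℕ) : ℤ⟦X⟧) * X ^ (∑ p ∈ S, p) +
        if L + 1 ∉ S then (((gp S).choose k : ℕ) : ℤ⟦X⟧) * X ^ (∑ p ∈ S, p) else 0 := by
    intro S _
    by_cases a : L + 1 ∈ S
    · simp [a]
    · simp [a, Nat.choose_succ_succ']; ring
  rw [Finset.sum_congr rfl e, Finset.sum_add_distrib]
  have e2 : ∑ S ∈ (Icc 1 (L+1)).powerset,
      (if L + 1 ∉ S then (((gp S).choose k : ℕ) : ℤ⟦X⟧) * X ^ (∑ p ∈ S, p) else 0) = BB k L := by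
    rw [Icc_succ, Finset.sum_powerset_insert (nm L)]
    simp only [mem_insert, true_or, not_true_eq_false, if_false, Finset.sum_const_zero, add_zero]
    exact Finset.sum_congr rfl fun S hS => if_pos fun a => nm L (mem_powerset.1 hS a)
  rw [e2]
  change BB (k+1) (L+1) + X^(L+2) * (BB (k+1) (L+1) + BB k L) = _
  ring

theorem Bz (k : ℕ) : BB (k+1) 0 = 0 := by simp [BB, gp]

theorem B00 : BB 0 0 = 1 := by simp [BB]

theorem Bo (k : ℕ) : BB (k+1) 1 = 0 := by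
  rw [BB_succ, Bz]; simp [gp]

noncomputable def T1 (L : ℕ) : ℤ⟦X⟧ := ∑ c ∈ range L, X ^ c
noncomputable def U (N : ℕ) : ℤ⟦X⟧ := ∑ a ∈ range N, X ^ (2*a) * T1 (N - a)
noncomputable def UQ (N : ℕ) : ℤ⟦X⟧ := ∑ a ∈ range N, X ^ (4*a) * ∑ c ∈ range (N - a), X ^ (2*c)

theorem T1a (L : ℕ) : T1 (L+1) = T1 L + X^L := by unfold T1; rw [Finset.sum_range_succ]
theorem T1b (L : ℕ) : T1 (L+1) = 1 + X * T1 L := by
  unfold T1; rw [Finset.sum_range_succ', Finset.mul_sum, add_comm]; simp [pow_succ']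

theorem Ua (N : ℕ) : U (N+1) = T1 (N+1) + X^2 * U N := by
  unfold U
  rw [Finset.sum_range_succ', Finset.mul_sum, add_comm]
  simp only [mul_zero, pow_zero, one_mul, Nat.sub_zero, Nat.add_sub_add_right]
  congr 1
  exact Finset.sum_congr rfl fun a _ => by ring

theorem Ub (N : ℕ) : U (N+1) = U N + X^N * T1 (N+1) := by
  induction N with
  | zero => simp [U]
  | succ N ih =>
    have h1 := Ua (N+1)
    have h2 := Ua N
    have h3 := T1a (N+1)
    have h4 := T1b (N+1)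
    linear_combination h1 + X^2 * ih - h2 + h3 - X^(N+1) * h4

theorem B1 (L : ℕ) : (1 + X) * BB 1 (L+1) = X^2 * T1 L * BB 0 L := by
  induction L with
  | zero => rw [Bo]; simp [T1]
  | succ L ih =>
    rw [Bk 0 L, B0]
    have h3 := T1a L
    have h4 := T1b L
    linear_combination (1 + X^(L+2)) * ih - X^2 * BB 0 L * (h3 + X^(L+1) * h3 + X^(L+1) * (h4 - h3))

theorem B22 : BB 2 2 = 0 := by rw [Bk 1 0, Bo, Bz]; simp
theorem B23 : BB 2 3 = 0 := by rw [Bk 1 1, B22, Bo]; simp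

theorem B2 (L : ℕ) : (1 + X) * (1 + X^2) * BB 2 (L+3) = X^6 * U L * BB 0 (L+1) := by
  induction L with
  | zero => rw [B23]; simp [U]
  | succ L ih =>
    rw [Bk 1 (L+2), B0 (L+1)]
    have h1 := B1 (L+1)
    have h3 := Ua L
    have h4 := Ub L
    linear_combination (1 + X^(L+4)) * ih + X^(L+4) * (1 + X^2) * h1
      - X^6 * BB 0 (L+1) * (h4 + X^(L+2) * h3)

theorem D3 (M : ℕ) : ∃ D : ℤ⟦X⟧, NN D ∧ BB 0 (M+2) = (1 + X) * (1 + X^2) * D := by
  induction M with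
  | zero => exact ⟨1, NN_one, by rw [B0, B0, B00]; ring⟩
  | succ M ih =>
    obtain ⟨D, h1, h2⟩ := ih
    exact ⟨(1 + X^(M+3)) * D, (NN_one.add (NN_pow _)).mul h1, by rw [B0, h2]; ring⟩

theorem sum2 (g : ℕ → ℤ⟦X⟧) (N : ℕ) : ∑ a ∈ range (2*N), g a = ∑ a ∈ range N, (g (2*a) + g (2*a+1)) := by
  induction N with
  | zero => simp
  | succ N ih => rw [show 2*(N+1) = 2*N+1+1 by ring, sum_range_succ, sum_range_succ, ih, sum_range_succ]; ring

theorem NN_T1 (L : ℕ) : NN (T1 L) := NN.sum _ _ fun _ _ => NN_pow _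

theorem UUQ (N K : ℕ) (h : N ≤ K) : NN ((1 + X) * (1 + X^2) * UQ K - U N) := by
  have e1 : ∀ M, (1 + X) * ∑ c ∈ range M, (X : ℤ⟦X⟧) ^ (2*c) = T1 (2*M) := by
    intro M
    unfold T1
    rw [sum2, Finset.mul_sum]
    exact Finset.sum_congr rfl fun a _ => by ring
  have e2 : (1 + X) * (1 + X^2) * UQ K = ∑ a ∈ range (2*K), X^(2*a) * T1 (2 * (K - a/2)) := by
    unfold UQ
    rw [sum2, Finset.mul_sum]
    refine Finset.sum_congr rfl fun a _ => ?_
    rw [show 2*a/2 = a by omega, show (2*a+1)/2 = a by omega, ← e1]; ring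
  have h1 := NN_sub_range (fun a => X^(2*a) * T1 (2 * (K - a/2))) (fun a => (NN_pow _).mul (NN_T1 _))
    N (2*K) (by omega)
  have h2 : NN (∑ a ∈ range N, (X^(2*a) * T1 (2 * (K - a/2)) - X ^ (2*a) * T1 (N - a))) := by
    refine NN.sum _ _ fun a _ => ?_
    rw [← mul_sub]
    exact (NN_pow _).mul (NN_sub_range _ (fun _ => NN_pow _) _ _ (by omega))
  rw [Finset.sum_sub_distrib] at h2
  have := h1.add h2
  rw [e2]; unfold U
  simpa using this

theorem NN_UQ (K : ℕ) : NN (UQ K) :=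
  NN.sum _ _ fun _ _ => (NN_pow _).mul (NN.sum _ _ fun _ _ => NN_pow _)

theorem main (L : ℕ) (O : ℤ⟦X⟧) (h0 : NN O) (h : NN (O - BB 0 (L - 2))) :
    NN (X^6 * UQ (L - 1) * O - BB 2 L) := by
  have hz : NN (X^6 * UQ (L - 1) * O) := ((NN_pow _).mul (NN_UQ _)).mul h0
  rcases L with _ | _ | _ | _ | M
  · rw [Bz, sub_zero]; exact hz
  · rw [Bo, sub_zero]; exact hz
  · rw [B22, sub_zero]; exact hz
  · rw [B23, sub_zero]; exact hz
  obtain ⟨D, h1, h2⟩ := D3 M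
  have h3 := B2 (M+1)
  have hne : ((1 + X) * (1 + X^2) : ℤ⟦X⟧) ≠ 0 := by
    intro a
    have := congrArg constantCoeff a
    simp at this
  have h4 : BB 2 (M+4) = X^6 * U (M+1) * D := by
    refine mul_left_cancel₀ hne ?_
    rw [h3, h2]; ring
  have h5 := ((NN_pow 6).mul (UUQ (M+1) (M+3) (by omega))).mul h1
  have h6 := ((NN_pow 6).mul (NN_UQ (M+3))).mul h
  have := h5.add h6
  rw [show M+1+1+1+1-2 = M+2 by omega, h2] at this
  rw [show M+1+1+1+1-1 = M+3 by omega, h4]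
  convert this using 1
  ring

end Pool.Agent.H.MP_d17fc5_co
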