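import Pool.Agent.H.MP_d17fc5_co.A

namespace Pool.Agent.H.MP_d17fc5_co
open Finset PowerSeries

def row {n : ℕ} (p : n.Partition) (i : ℕ) : ℕ := (p.parts.sort (· ≥ ·)).getD (i - 1) 0

def col {n : ℕ} (p : n.Partition) (j : ℕ) : ℕ := (p.parts.filter (j ≤ ·)).card

def cells2 {n : ℕ} (p : n.Partition) : Finset (ℕ × ℕ) :=
  (Icc 1 n ×ˢ Icc 1 n).filter fun c =>
    c.2 ≤ row p c.1 ∧ (row p c.1 : ℤ) + (col p c.2 : ℤ) - c.1 - c.2 + 1 = 2

theorem list_key (j : ℕ) (hj : 1 ≤ j) (l : List ℕ) (hl : l.Pairwise (· ≥ ·)) (i : ℕ) :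
    j ≤ l.getD i 0 ↔ i < l.countP (j ≤ ·) := by
  induction l generalizing i with
  | nil => simp; omega
  | cons a t ih =>
    rw [List.pairwise_cons] at hl
    by_cases h : j ≤ a
    · rw [List.countP_cons_of_pos (by simpa using h)]
      rcases i with _ | i
      · simpa using h
      · rw [List.getD_cons_succ, ih hl.2]; omega
    · rw [List.countP_cons_of_neg (by simpa using h)]
      have h0 : t.countP (j ≤ ·) = 0 := by
        rw [List.countP_eq_zero]
        intro b hb
        have := hl.1 b hb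
        simp only [decide_eq_true_eq]; omega
      rcases i with _ | i
      · simp only [List.getD_cons_zero, h0]; omega
      · rw [List.getD_cons_succ, ih hl.2, h0]; omega

theorem rc {n : ℕ} (p : n.Partition) (i j : ℕ) (hi : 1 ≤ i) (hj : 1 ≤ j) : j ≤ row p i ↔ i ≤ col p j := by
  unfold row col
  rw [list_key j hj _ (Multiset.pairwise_sort _ _), ← Multiset.countP_eq_card_filter, ← Multiset.coe_countP,
    Multiset.sort_eq]
  exact ⟨fun a => Nat.le_of_pred_lt a, fun a => Nat.lt_of_lt_of_le (by omega) a⟩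

theorem col_succ {n : ℕ} (p : n.Partition) (j : ℕ) : col p j = col p (j+1) + p.parts.count j := by
  unfold col
  induction p.parts using Multiset.induction_on with
  | empty => simp
  | cons a s ih =>
    simp only [Multiset.filter_cons, Multiset.card_add, Multiset.count_cons, ih]
    split_ifs <;> simp <;> omega

theorem col_le {n : ℕ} (p : n.Partition) (j : ℕ) : col p j ≤ n := by
  have h1 : col p j ≤ p.parts.card := Multiset.card_le_card (Multiset.filter_le _ _)
  have h2 := Multiset.card_nsmul_le_sum (s := p.parts) (a := 1) fun x hx => p.parts_pos hx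
  rw [p.parts_sum] at h2
  simp only [smul_eq_mul, mul_one] at h2
  omega

theorem row_eq {n : ℕ} (p : n.Partition) (i P : ℕ) (hi : 1 ≤ i) (hP : 1 ≤ P) (h1 : i ≤ col p P)
    (h2 : col p (P+1) < i) : row p i = P := by
  have a := (rc p i P hi hP).2 h1
  have b := (rc p i (P+1) hi (by omega)).not.2 (by omega)
  omega

theorem arm {n : ℕ} (p : n.Partition) (P : ℕ) (h2 : 2 ≤ P) (h : P ∈ p.parts) (h' : P - 1 ∉ p.parts) :
    P - 1 ∈ (cells2 p).image Prod.snd := by
  have a := col_succ p P
  have b := col_succ p (P-1)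
  rw [show P - 1 + 1 = P by omega, Multiset.count_eq_zero.2 h'] at b
  have c := Multiset.one_le_count_iff_mem.2 h
  have d := col_le p P
  have e := p.le_of_mem_parts h
  have r := row_eq p (col p P) P (by omega) (by omega) le_rfl (by omega)
  refine mem_image.2 ⟨(col p P, P - 1), ?_, rfl⟩
  simp only [cells2, mem_filter, mem_product, mem_Icc, r]
  omega

theorem leg {n : ℕ} (p : n.Partition) (P : ℕ) (h1 : 1 ≤ P) (h : 2 ≤ p.parts.count P) :
    P ∈ (cells2 p).image Prod.snd := by
  have a := col_succ p P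
  have d := col_le p P
  have e := p.le_of_mem_parts (Multiset.one_le_count_iff_mem.1 (show 1 ≤ p.parts.count P by omega))
  have r := row_eq p (col p P - 1) P (by omega) (by omega) (by omega) (by omega)
  refine mem_image.2 ⟨(col p P - 1, P), ?_, rfl⟩
  simp only [cells2, mem_filter, mem_product, mem_Icc, r]
  omega

theorem dist_le {n : ℕ} (p : n.Partition) (h : p.parts.Nodup) : (cells2 p).card ≤ gp p.parts.toFinset := by
  have key : ∀ c ∈ cells2 p, c.1 = col p c.2 ∧ c.2 + 1 ∈ p.parts ∧ 1 ≤ c.2 ∧ c.2 ∉ p.parts := by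
    rintro ⟨i, j⟩ hc
    simp only [cells2, mem_filter, mem_product, mem_Icc] at hc ⊢
    obtain ⟨⟨⟨a1, -⟩, a2, -⟩, a3, a4⟩ := hc
    have b1 := (rc p i j a1 a2).1 a3
    have b2 := rc p i (j+1) a1 (by omega)
    have b3 := rc p i (j+2) a1 (by omega)
    have c1 := col_succ p j
    have c2 := col_succ p (j+1)
    have d1 := Multiset.nodup_iff_count_le_one.1 h j
    rw [show j+1+1 = j+2 by ring] at c2
    rw [← Multiset.one_le_count_iff_mem, ← Multiset.count_eq_zero]
    omega
  unfold gp
  refine Finset.card_le_card_of_injOn (fun c => c.2 + 1) (fun c hc => ?_) (fun c hc d hd e => ?_)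
  · obtain ⟨-, a, b, d⟩ := key c hc
    simp only [coe_filter, Multiset.mem_toFinset, Set.mem_ofPred_eq, Nat.add_sub_cancel]
    exact ⟨a, by omega, d⟩
  · have a := (key c hc).1
    have b := (key d hd).1
    have e' : c.2 = d.2 := by simpa using e
    exact Prod.ext (by rw [a, b, e']) e'

def oddS (L n : ℕ) : Finset n.Partition := univ.filter fun p => ∀ i ∈ p.parts, Odd i ∧ i ≤ 2 * L - 1
def disS (L n : ℕ) : Finset n.Partition := univ.filter fun p => p.parts.Nodup ∧ ∀ i ∈ p.parts, i ≤ L

theorem coeff_BB (k L n : ℕ) : coeff n (BB k L) =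
    ∑ S ∈ (Icc 1 L).powerset.filter (fun S => ∑ p ∈ S, p = n), (((gp S).choose k : ℕ) : ℤ) := by
  unfold BB
  rw [map_sum, Finset.sum_filter]
  refine Finset.sum_congr rfl fun S _ => ?_
  rw [← map_natCast (C (R := ℤ)), coeff_C_mul, coeff_X_pow]
  by_cases h : ∑ p ∈ S, p = n
  · simp [h]
  · simp [h, Ne.symm h]

theorem Bside (L n : ℕ) : ∑ p ∈ disS L n, (((cells2 p).card.choose 2 : ℕ) : ℤ) ≤ coeff n (BB 2 L) := by
  rw [coeff_BB]
  have hi : Set.InjOn (fun p : n.Partition => p.parts.toFinset) (disS L n) := by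
    intro p hp q hq e
    simp only [disS, coe_filter, mem_univ, true_and, Set.mem_ofPred_eq] at hp hq
    ext1
    have := congrArg Finset.val e
    simpa [Multiset.toFinset_val, hp.1.dedup, hq.1.dedup] using this
  calc _ ≤ ∑ p ∈ disS L n, (((gp p.parts.toFinset).choose 2 : ℕ) : ℤ) :=
        Finset.sum_le_sum fun p hp => by
          exact_mod_cast Nat.choose_le_choose 2 (dist_le p (mem_filter.1 hp).2.1)
    _ = ∑ S ∈ (disS L n).image (fun p : n.Partition => p.parts.toFinset), (((gp S).choose 2 : ℕ) : ℤ) := by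
        rw [Finset.sum_image hi]
    _ ≤ _ := by
        refine Finset.sum_le_sum_of_subset_of_nonneg (fun S hS => ?_) fun _ _ _ => by positivity
        obtain ⟨p, hp, rfl⟩ := mem_image.1 hS
        have hp' := (mem_filter.1 hp).2
        refine mem_filter.2 ⟨mem_powerset.2 fun x hx => ?_, ?_⟩
        · rw [Multiset.mem_toFinset] at hx
          exact mem_Icc.2 ⟨p.parts_pos hx, hp'.2 x hx⟩
        · rw [Finset.sum, Multiset.toFinset_val, hp'.1.dedup, Multiset.map_id', p.parts_sum]

noncomputable def O (L : ℕ) : ℤ⟦X⟧ := PowerSeries.mk fun n => ((oddS L n).card : ℤ)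

theorem NN_O (L : ℕ) : NN (O L) := fun n => by simp [O]

def gl (S : Finset ℕ) : Multiset ℕ := ∑ j ∈ S, Multiset.replicate (2 ^ j.factorization 2) (ordCompl[2] j)

theorem gl_count (S : Finset ℕ) (a : ℕ) : (gl S).count a =
    ∑ i ∈ (S.filter fun j => ordCompl[2] j = a).image (fun j => j.factorization 2), 2 ^ i := by
  rw [Finset.sum_image, Finset.sum_filter, gl, Multiset.count_sum']
  · exact Finset.sum_congr rfl fun j _ => Multiset.count_replicate _ _ _
  · intro x hx y hy e
    simp only [coe_filter, Set.mem_ofPred_eq] at hx hy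
    have e' : x.factorization 2 = y.factorization 2 := e
    rw [← Nat.ordProj_mul_ordCompl_eq_self x 2, ← Nat.ordProj_mul_ordCompl_eq_self y 2, hx.2, hy.2, e']

theorem gl_sub (S T : Finset ℕ) (e : gl S = gl T) : S ⊆ T := by
  intro x hx
  have h := congrArg (Multiset.count (ordCompl[2] x)) e
  rw [gl_count, gl_count] at h
  have h2 := Finset.geomSum_injective (le_refl 2) h
  have h3 : x.factorization 2 ∈ (S.filter fun j => ordCompl[2] j = ordCompl[2] x).image
      (fun j => j.factorization 2) := mem_image.2 ⟨x, mem_filter.2 ⟨hx, rfl⟩, rfl⟩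
  rw [h2] at h3
  obtain ⟨y, hy, e'⟩ := mem_image.1 h3
  have hy' := mem_filter.1 hy
  have : y = x := by
    rw [← Nat.ordProj_mul_ordCompl_eq_self x 2, ← Nat.ordProj_mul_ordCompl_eq_self y 2, hy'.2, e']
  exact this ▸ hy'.1

theorem glais (L M : ℕ) (h : M ≤ 2 * L - 1) : NN (O L - BB 0 M) := by
  intro n
  rw [map_sub, coeff_BB, sub_nonneg]
  simp only [Nat.choose_zero_right, Nat.cast_one, Finset.sum_const, nsmul_eq_mul, mul_one, O, coeff_mk,
    Nat.cast_le]
  have hp : Function.Injective (fun p : n.Partition => p.parts) := fun p q e => Nat.Partition.ext e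
  rw [← Finset.card_image_of_injective (oddS L n) hp]
  refine Finset.card_le_card_of_injOn gl (fun S hS => ?_)
    (fun S _ T _ e => Finset.Subset.antisymm (gl_sub S T e) (gl_sub T S e.symm))
  simp only [coe_filter, mem_powerset, Set.mem_ofPred_eq] at hS
  have hm : ∀ i ∈ gl S, Odd i ∧ i ≤ 2 * L - 1 := by
    intro i hi
    obtain ⟨j, hj, hi⟩ := Multiset.mem_sum.1 hi
    have := mem_Icc.1 (hS.1 hj)
    rw [Multiset.eq_of_mem_replicate hi]
    refine ⟨?_, le_trans (Nat.ordCompl_le j 2) (by omega)⟩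
    rw [← Nat.not_even_iff_odd, even_iff_two_dvd]
    exact Nat.not_dvd_ordCompl Nat.prime_two (by omega)
  refine mem_coe.2 (mem_image.2 ⟨⟨gl S, fun hi => (hm _ hi).1.pos, ?_⟩, mem_filter.2 ⟨mem_univ _, hm⟩, rfl⟩)
  rw [gl, Multiset.sum_sum, ← hS.2]
  refine Finset.sum_congr rfl fun j _ => ?_
  rw [Multiset.sum_replicate, smul_eq_mul, Nat.ordProj_mul_ordCompl_eq_self]

theorem shift (L n P Q : ℕ) (hP : Odd P ∧ P ≤ 2 * L - 1) (hQ : Odd Q ∧ Q ≤ 2 * L - 1) :
    coeff n (X ^ (P + Q) * O L) ≤ (((oddS L n).filter fun p => {P, Q} ≤ p.parts).card : ℤ) := by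
  rw [coeff_X_pow_mul']
  split_ifs with h
  swap
  · positivity
  simp only [O, coeff_mk, Nat.cast_le]
  have hp : Function.Injective (fun p : n.Partition => p.parts) := fun p q e => Nat.Partition.ext e
  rw [← Finset.card_image_of_injective _ hp]
  refine Finset.card_le_card_of_injOn (fun p => {P, Q} + p.parts) (fun p hp => ?_)
    (fun p _ q _ e => Nat.Partition.ext (add_left_cancel e))
  have hp' := (mem_filter.1 (mem_coe.1 hp)).2
  have hm : ∀ i ∈ ({P, Q} : Multiset ℕ) + p.parts, Odd i ∧ i ≤ 2 * L - 1 := by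
    intro i hi
    simp only [Multiset.insert_eq_cons, Multiset.mem_add, Multiset.mem_cons, Multiset.mem_singleton] at hi
    rcases hi with (rfl | rfl) | hi
    exacts [hP, hQ, hp' i hi]
  refine mem_coe.2 (mem_image.2 ⟨⟨{P, Q} + p.parts, fun hi => (hm _ hi).1.pos, ?_⟩,
    mem_filter.2 ⟨mem_filter.2 ⟨mem_univ _, hm⟩, Multiset.le_add_right _ _⟩, rfl⟩)
  simp only [Multiset.insert_eq_cons, Multiset.sum_add, Multiset.sum_cons, Multiset.sum_singleton, p.parts_sum]
  omega

theorem pairs {n : ℕ} (p : n.Partition) (ho : ∀ i ∈ p.parts, Odd i) (s : Finset (Σ _ : ℕ, ℕ)) :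
    (s.filter fun x => {3 + 2 * x.1, 3 + 2 * x.1 + 2 * x.2} ≤ p.parts).card ≤ (cells2 p).card.choose 2 := by
  refine le_trans ?_ (Nat.choose_le_choose 2 (Finset.card_image_le (f := Prod.snd)))
  rw [← Finset.card_powersetCard]
  have ha : ∀ a, 3 + 2 * a ∈ p.parts → 2 + 2 * a ∈ (cells2 p).image Prod.snd := by
    intro a h
    have := arm p _ (by omega) h (fun b => by have := Nat.odd_iff.1 (ho _ b); omega)
    rwa [show 3 + 2 * a - 1 = 2 + 2 * a by omega] at this
  refine Finset.card_le_card_of_injOn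
    (fun x => {2 + 2 * x.1, if x.2 = 0 then 3 + 2 * x.1 else 2 + 2 * (x.1 + x.2)}) ?_ ?_
  · rintro ⟨a, c⟩ hx
    have h := (mem_filter.1 (mem_coe.1 hx)).2
    simp only at h
    refine mem_coe.2 (mem_powersetCard.2 ⟨?_, Finset.card_pair (by split_ifs <;> omega)⟩)
    intro y hy
    simp only [mem_insert, mem_singleton] at hy
    rcases hy with rfl | rfl
    · exact ha a (Multiset.mem_of_le h (by simp))
    · split_ifs with hc
      · subst hc
        refine leg p _ (by omega) ?_
        have := Multiset.count_le_of_le (3 + 2 * a) h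
        simpa using this
      · refine ha _ (Multiset.mem_of_le h ?_)
        simp only [Multiset.insert_eq_cons, Multiset.mem_cons, Multiset.mem_singleton]
        omega
  · rintro ⟨a, c⟩ - ⟨b, d⟩ - e
    simp only at e
    have h1 := (Finset.ext_iff.1 e (2 + 2 * a)).1 (by simp)
    have h2 := (Finset.ext_iff.1 e (2 + 2 * b)).2 (by simp)
    have h3 := (Finset.ext_iff.1 e (if c = 0 then 3 + 2 * a else 2 + 2 * (a + c))).1 (by simp)
    simp only [mem_insert, mem_singleton] at h1 h2 h3
    have : a = b ∧ c = d := by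
      split_ifs at h1 h2 h3 <;> omega
    rw [this.1, this.2]

theorem Aside (L n : ℕ) : coeff n (X^6 * UQ (L - 1) * O L) ≤
    ∑ p ∈ oddS L n, (((cells2 p).card.choose 2 : ℕ) : ℤ) := by
  have e : X^6 * UQ (L - 1) * O L = ∑ x ∈ (range (L-1)).sigma (fun a => range (L - 1 - a)),
      X ^ ((3 + 2 * x.1) + (3 + 2 * x.1 + 2 * x.2)) * O L := by
    unfold UQ
    rw [Finset.sum_sigma]
    simp only [Finset.mul_sum, Finset.sum_mul]
    exact Finset.sum_congr rfl fun a _ => Finset.sum_congr rfl fun c _ => by ring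
  rw [e, map_sum]
  calc _ ≤ ∑ x ∈ (range (L-1)).sigma (fun a => range (L - 1 - a)),
        (((oddS L n).filter fun p => {3 + 2 * x.1, 3 + 2 * x.1 + 2 * x.2} ≤ p.parts).card : ℤ) := by
        refine Finset.sum_le_sum fun x hx => ?_
        simp only [mem_sigma, mem_range] at hx
        exact shift L n _ _ ⟨Nat.odd_iff.2 (by omega), by omega⟩ ⟨Nat.odd_iff.2 (by omega), by omega⟩
    _ = ∑ p ∈ oddS L n, ((((range (L-1)).sigma (fun a => range (L - 1 - a))).filter
          fun x => {3 + 2 * x.1, 3 + 2 * x.1 + 2 * x.2} ≤ p.parts).card : ℤ) := by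
        simp only [Finset.card_filter]
        push_cast
        exact Finset.sum_comm
    _ ≤ _ := Finset.sum_le_sum fun p hp => by
        exact_mod_cast pairs p (fun i hi => ((mem_filter.1 hp).2 i hi).1) _

theorem final (L n : ℕ) : ∑ p ∈ disS L n, (cells2 p).card.choose 2 ≤ ∑ p ∈ oddS L n, (cells2 p).card.choose 2 := by
  have h1 := main L (O L) (NN_O L) (glais L (L-2) (by omega)) n
  rw [map_sub, sub_nonneg] at h1
  have := (Bside L n).trans (h1.trans (Aside L n))
  exact_mod_cast this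

end Pool.Agent.H.MP_d17fc5_co
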